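import Pool.Agent.Run7.h191.Cont4

/-!
# Record prime gaps around all the continuants, and the Euclidean algorithm

Definitions used (`Pool.Agent.Run7.h191.CT`):
* `kk b x i l`: the generalised continuant of `x i, …, x (i + l - 1)`: it is `1` for `l = 0`, `x i` for `l = 1`, and
  `kk b x i (l + 2) = x (i + l + 1) * kk b x i (l + 1) + b (i + l + 1) * kk b x i l`.
* `rem u v k`: the remainders of the Euclidean algorithm for `u` and `v`: `rem 0 = u`, `rem 1 = v`,
  `rem (k + 2) = rem k % rem (k + 1)`.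
* `num a k`, `den a k`: the numerator and the denominator of the continued fraction with the `k` partial quotients
  `a 0, …, a (k - 1)`: `num 0 = 1`, `num 1 = a 0`, `num (k + 2) = a (k + 1) * num (k + 1) + num k`, and
  `den 0 = 0`, `den 1 = 1`, `den (k + 2) = a (k + 1) * den (k + 1) + den k`.

Method: the continuants of all the blocks of consecutive variables are equidistributed modulo the primes, one by one with the
error `O(1 / p)` (apart from the value `b j` of the blocks of length two), and pairwise up to a constant factor, because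
neighbouring continuants have no common zero; then the criterion of helper837 (`Pool.Agent.Y837.SV.crit3`) applies.
-/

set_option autoImplicit false

namespace Pool.Agent.Results.MP_7ba156_nt.Continuants

open Pool.Agent.Run7.h191.CT (kk rem num den)

/-- The record scale `f X = log X (log₂ X) ^ 2 log₄ X / (log₃ X) ^ 2` of the library. -/
noncomputable def f (X : ℝ) : ℝ :=
  Real.log X * (Real.log (Real.log X)) ^ 2 * Real.log (Real.log (Real.log (Real.log X))) /
    (Real.log (Real.log (Real.log X))) ^ 2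

/-- the continuant does not use `b 0` -/
lemma kk_b (b b' : ℕ → ℤ) (h : ∀ j, 1 ≤ j → b j = b' j) (x : ℕ → ℤ) (i : ℕ) :
    ∀ l : ℕ, kk b x i l = kk b' x i l := by
  intro l
  induction l using Nat.strong_induction_on with
  | _ l ih =>
    match l with
    | 0 => rfl
    | 1 => rfl
    | (m + 2) =>
      rw [Pool.Agent.Run7.h191.CT.kk_succ, Pool.Agent.Run7.h191.CT.kk_succ, ih (m + 1) (by omega), ih m (by omega),
        h (i + m + 1) (by omega)]

/-- **(1)** Let `b 1, …, b (d - 1)` be nonzero integers. There are `c > 0` and `Z₀` such that for every integer `Z ≥ Z₀` and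
all integers `M i` there are integers `M i < x i ≤ M i + Z`, `i < d`, with the following property: for ALL the blocks
`x i, …, x (i + l - 1)`, `l ≥ 1`, `i + l ≤ d`, every integer at a distance of at most `c f(Z)` from the generalised continuant
`K(x i, …, x (i + l - 1))` has a prime factor `p ≤ Z ^ (1 / 10)`.

**(2)** For every `e` there are `c > 0` and `Z₀` such that for every integer `Z ≥ Z₀` and all integers `M i ≥ Z` there are
integers `M i < a i ≤ M i + Z`, `i ≤ e`, such that the numerator `u` and the denominator `v` of the continued fraction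
`[a 0; a 1, …, a e]` are coprime with `v < u`, the Euclidean algorithm for `u` and `v` has the quotients `a 0, …, a e` and
the strictly decreasing remainders `u = r_0, v = r_1, r_2, …, r_e`, `r_(e + 1) = 1`, `r_(e + 2) = 0`, and no prime is within
`c f(Z)` of any of the remainders `r_0, …, r_e`, of any numerator of a convergent, or of any denominator of a convergent
(apart from the first denominator, which is `1`). -/
theorem result :
    (∀ (d : ℕ) (b : ℕ → ℤ), (∀ j, 1 ≤ j → j < d → b j ≠ 0) → ∃ c : ℝ, 0 < c ∧ ∃ Z₀ : ℝ, ∀ Z : ℕ, Z₀ ≤ Z →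
      ∀ M : ℕ → ℤ, ∃ x : ℕ → ℤ, (∀ i, i < d → M i < x i ∧ x i ≤ M i + Z) ∧
        ∀ i l : ℕ, 1 ≤ l → i + l ≤ d → ∀ n : ℤ, |(n : ℝ) - (kk b x i l : ℤ)| ≤ c * f Z →
          ∃ p : ℕ, p.Prime ∧ (p : ℝ) ≤ (Z : ℝ) ^ (1 / 10 : ℝ) ∧ (p : ℤ) ∣ n) ∧
    (∀ e : ℕ, ∃ c : ℝ, 0 < c ∧ ∃ Z₀ : ℝ, ∀ Z : ℕ, Z₀ ≤ Z → ∀ M : ℕ → ℕ, (∀ i, i ≤ e → Z ≤ M i) →
      ∃ a : ℕ → ℕ, (∀ i, i ≤ e → M i < a i ∧ a i ≤ M i + Z) ∧
        ∀ u v : ℕ, u = num a (e + 1) → v = den a (e + 1) → Nat.Coprime u v ∧ v < u ∧
        (∀ k, k ≤ e → rem u v k / rem u v (k + 1) = a k ∧ rem u v (k + 1) < rem u v k) ∧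
        rem u v (e + 1) = 1 ∧ rem u v (e + 2) = 0 ∧
        ∀ q : ℕ, q.Prime →
          (∀ k, k ≤ e → c * f Z < |(q : ℝ) - (rem u v k : ℕ)|) ∧
          (∀ k, 1 ≤ k → k ≤ e + 1 → c * f Z < |(q : ℝ) - (num a k : ℕ)|) ∧
          (∀ k, 2 ≤ k → k ≤ e + 1 → c * f Z < |(q : ℝ) - (den a k : ℕ)|)) := by
  refine ⟨fun d b hb => ?_, Pool.Agent.Run7.h191.CT.euclid⟩
  obtain ⟨c, hc, Z₀, h⟩ := Pool.Agent.Run7.h191.CT.main (fun j => if j = 0 then 1 else b j) d (by
    intro j hj
    show (if j = 0 then 1 else b j) ≠ 0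
    split_ifs with h0
    · exact one_ne_zero
    · exact hb j (by omega) hj)
  refine ⟨c, hc, Z₀, fun Z hZ M => ?_⟩
  obtain ⟨x, hx1, hx2⟩ := h Z hZ (fun i => M i.val)
  refine ⟨Pool.Agent.Run7.h191.CT.ex x, fun i hi => ?_, fun i l hl hil n hn => ?_⟩
  · rw [Pool.Agent.Run7.h191.CT.ex_lt x hi]
    exact hx1 ⟨i, hi⟩
  · refine hx2 i l hl hil n ?_
    rw [kk_b (fun j => if j = 0 then 1 else b j) b (fun j hj => if_neg (by omega))]
    exact hn

end Pool.Agent.Results.MP_7ba156_nt.Continuants
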