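import Pool.Agent.Run7.h914.MatRec
import Pool.Agent.Run7.h914.Gap

set_option autoImplicit false

/-!
# Large prime gaps around all entries of the matrices of given determinant modulo primes

Write `f(x) = log x (log₂ x)² log₄ x / (log₃ x)²` for the record size of the prime-free intervals.

(1) Let `n ≥ 3`, let `p` be a large prime and `d` a nonzero residue (for `d = 1` these are the integer
representatives of the elements of `SL_n` over the field with `p` elements).  In every box of `n × n` matrices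
(the entry `Z_ij` in the interval `(M_ij, M_ij + L_ij]`, `M_ij ≥ 2 p ^ δ`) with sides between `p ^ δ` and `p` and of
volume `V ≥ p ^ (n² - n + δ)` at least `p ^ (-δ) V / p` integer matrices `Z` have determinant `≡ d (mod p)` and are
such that every monomial `∏ Z_ij ^ (e_ij)`, for all coprime systems of exponents `e_ij ≤ E`, lies in a gap of length
at least `κ f(p)` between consecutive primes.  So all the entries, the products of different entries, ... are in
record prime gaps.  For boxes with equal sides the entries can be chosen in any interval of length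
`p ^ (1 - 1 / n + δ)`, beginning after `2 p ^ δ`.

(2) The same for the singular matrices (`det Z ≡ 0`), `n ≥ 2`, in the boxes of volume `V ≥ p ^ (n² - n + 1 + δ)`.

In each case about `V / p` integer matrices of the box have the given determinant.

Proof.  The Fourier coefficients of the sets of matrices of given determinant are computed by an elementary
induction; then the joint covering sieve of the starting library `N39.RG`.
-/

namespace Pool.Agent.Results.MP_7ba156_nt.EntriesOfMatrices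

/-- The record scale `f(x) = log x (log₂ x)² log₄ x / (log₃ x)²` (iterated natural logarithms). -/
noncomputable def f (x : ℝ) : ℝ :=
  Real.log x * (Real.log (Real.log x)) ^ 2 * Real.log (Real.log (Real.log (Real.log x))) /
    (Real.log (Real.log (Real.log x))) ^ 2

/-- `n` lies strictly between two consecutive primes `q < q'` with `q' - q ≥ g`. -/
def InGap (g : ℝ) (n : ℤ) : Prop :=
  ∃ q q' : ℕ, q.Prime ∧ q'.Prime ∧ (q : ℤ) < n ∧ n < q' ∧ (∀ l : ℕ, q < l → l < q' → ¬ l.Prime) ∧ g ≤ (q' : ℝ) - q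

/-- The matrix `Z` is in the box, and all its monomials with coprime exponents `≤ E` are in prime gaps of length at
least `g`. -/
def GoodMatrix {n : ℕ} (E : ℕ) (g : ℝ) (M : Fin n → Fin n → ℤ) (L : Fin n → Fin n → ℕ)
    (Z : Matrix (Fin n) (Fin n) ℤ) : Prop :=
  (∀ i j, M i j < Z i j ∧ Z i j ≤ M i j + L i j) ∧
    ∀ e : Fin n → Fin n → ℕ, (∀ i j, e i j ≤ E) → Finset.univ.gcd (fun q : Fin n × Fin n => e q.1 q.2) = 1 →
      InGap g (∏ i, ∏ j, Z i j ^ e i j)

theorem transfer {n : ℕ} (E : ℕ) (κ δ : ℝ) (p : ℕ) [Fact p.Prime] (M : Fin n → Fin n → ℤ) (L : Fin n → Fin n → ℕ)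
    (h0 : 0 ≤ κ * f p) (h1 : κ * f p ≤ (p : ℝ) ^ δ) (h2 : 1 ≤ (p : ℝ) ^ δ) (hM : ∀ i j, 2 * (p : ℝ) ^ δ ≤ M i j)
    (d : ZMod p) (x : ℝ)
    (h : x ≤ (Set.ncard {z : Fin n × Fin n → ℤ | (∀ q, M q.1 q.2 < z q ∧ z q ≤ M q.1 q.2 + L q.1 q.2) ∧
        (Matrix.of (fun i j => (z (i, j) : ZMod p))).det = d ∧ Run7.h914.GoodI E κ δ p z} : ℝ)) :
    x ≤ (Set.ncard {Z : Matrix (Fin n) (Fin n) ℤ | GoodMatrix E (κ * f p) M L Z ∧ ((Z.det : ℤ) : ZMod p) = d} : ℝ) := by
  refine h.trans ?_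
  rw [Nat.cast_le]
  have hinj : Function.Injective (fun z : Fin n × Fin n → ℤ => (Matrix.of (fun i j => z (i, j)) :
      Matrix (Fin n) (Fin n) ℤ)) := by
    intro z z' hz
    funext q
    exact congrFun (congrFun hz q.1) q.2
  rw [← Set.ncard_image_of_injective _ hinj]
  refine Set.ncard_le_ncard ?_ ?_
  · rintro Z ⟨z, ⟨h3, h4, h5⟩, rfl⟩
    refine ⟨⟨fun i j => h3 (i, j), fun e he hg => ?_⟩, ?_⟩
    · have h6 := Run7.h914.gaps_of (ι := Fin n × Fin n) (z := z) (e := fun q => e q.1 q.2) h0 h1 h2 (fun q => by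
        have h7 : ((M q.1 q.2 : ℤ) : ℝ) < z q := by exact_mod_cast (h3 q).1
        exact lt_of_le_of_lt (hM q.1 q.2) h7) hg (fun m hm => by
        refine h5 (fun q => e q.1 q.2) (fun q => he q.1 q.2) hg m ?_
        push_cast at hm
        exact hm)
      rw [Fintype.prod_prod_type] at h6
      exact h6
    · rw [Int.cast_det]
      exact h4
  · refine (Set.Finite.pi' (fun i => Set.Finite.pi' (fun j => Set.finite_Ioc (M i j) (M i j + L i j)))).subset ?_
    intro Z hZ i j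
    exact hZ.1.1 i j

theorem vol {p n : ℕ} (hp : 0 < p) (L : Fin n → Fin n → ℕ) :
    (p : ℝ) ^ ((n : ℝ) ^ 2 - 1) * ∏ q : Fin n × Fin n, ((L q.1 q.2 : ℝ) / p) = (∏ i, ∏ j, (L i j : ℝ)) / p := by
  have hp0 : (0 : ℝ) < p := by exact_mod_cast hp
  rw [Finset.prod_div_distrib, Finset.prod_const, Finset.card_univ, Fintype.card_prod, Fintype.card_fin,
    Fintype.prod_prod_type, Real.rpow_sub hp0, Real.rpow_one]
  have h : (p : ℝ) ^ ((n : ℝ) ^ 2) = (p : ℝ) ^ (n * n) := by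
    apply Run7.h914.pow_as_rpow
    push_cast
    ring
  rw [h]
  have : (p : ℝ) ^ (n * n) ≠ 0 := by positivity
  field_simp

/-- **Large prime gaps around all entries of the matrices of given determinant modulo primes.** -/
theorem result (n E : ℕ) (δ : ℝ) (hδ : 0 < δ) (hδ1 : δ ≤ 1) :
    (3 ≤ n → ∃ κ : ℝ, 0 < κ ∧ ∃ p₀ : ℕ, ∀ (p : ℕ) [Fact p.Prime], p₀ ≤ p → ∀ d : ZMod p, d ≠ 0 →
      ∀ (M : Fin n → Fin n → ℤ) (L : Fin n → Fin n → ℕ), (∀ i j, 2 * (p : ℝ) ^ δ ≤ M i j) →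
        (∀ i j, (p : ℝ) ^ δ ≤ L i j ∧ L i j ≤ p) →
        (p : ℝ) ^ ((n : ℝ) ^ 2 - n + δ) ≤ ∏ i, ∏ j, (L i j : ℝ) →
      (p : ℝ) ^ (-δ) * ((∏ i, ∏ j, (L i j : ℝ)) / p) ≤
        (Set.ncard {Z : Matrix (Fin n) (Fin n) ℤ |
          GoodMatrix E (κ * f p) M L Z ∧ ((Z.det : ℤ) : ZMod p) = d} : ℝ)) ∧
    (2 ≤ n → ∃ κ : ℝ, 0 < κ ∧ ∃ p₀ : ℕ, ∀ (p : ℕ) [Fact p.Prime], p₀ ≤ p →
      ∀ (M : Fin n → Fin n → ℤ) (L : Fin n → Fin n → ℕ), (∀ i j, 2 * (p : ℝ) ^ δ ≤ M i j) →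
        (∀ i j, (p : ℝ) ^ δ ≤ L i j ∧ L i j ≤ p) →
        (p : ℝ) ^ ((n : ℝ) ^ 2 - n + 1 + δ) ≤ ∏ i, ∏ j, (L i j : ℝ) →
      (p : ℝ) ^ (-δ) * ((∏ i, ∏ j, (L i j : ℝ)) / p) ≤
        (Set.ncard {Z : Matrix (Fin n) (Fin n) ℤ |
          GoodMatrix E (κ * f p) M L Z ∧ ((Z.det : ℤ) : ZMod p) = 0} : ℝ)) := by
  constructor
  · intro hn
    obtain ⟨m, rfl⟩ : ∃ m, n = m + 3 := ⟨n - 3, by omega⟩
    obtain ⟨κ, hκ, p₀, h⟩ := Run7.h914.rec_mat m E δ hδ hδ1
    obtain ⟨p₁, h'⟩ := Run7.h914.ff_small κ δ hκ hδ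
    refine ⟨κ, hκ, max p₀ p₁, ?_⟩
    intro p _ hpp d hd M L hM hL hV
    have hp : p.Prime := Fact.out
    obtain ⟨b0, b1, b2⟩ := h' p ((le_max_right _ _).trans hpp)
    apply transfer E κ δ p M L b0 b1 b2 hM
    rw [← vol hp.pos]
    refine h p ((le_max_left _ _).trans hpp) d hd (fun q => M q.1 q.2) (fun q => L q.1 q.2) (fun q => hL q.1 q.2) ?_
    rw [Fintype.prod_prod_type]
    exact hV
  · intro hn
    obtain ⟨m, rfl⟩ : ∃ m, n = m + 1 := ⟨n - 1, by omega⟩
    obtain ⟨κ, hκ, p₀, h⟩ := Run7.h914.rec_sing m E δ hδ hδ1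
    obtain ⟨p₁, h'⟩ := Run7.h914.ff_small κ δ hκ hδ
    refine ⟨κ, hκ, max p₀ p₁, ?_⟩
    intro p _ hpp M L hM hL hV
    have hp : p.Prime := Fact.out
    obtain ⟨b0, b1, b2⟩ := h' p ((le_max_right _ _).trans hpp)
    apply transfer E κ δ p M L b0 b1 b2 hM
    rw [← vol hp.pos]
    refine h p ((le_max_left _ _).trans hpp) (fun q => M q.1 q.2) (fun q => L q.1 q.2) (fun q => hL q.1 q.2) ?_
    rw [Fintype.prod_prod_type]
    exact hV

end Pool.Agent.Results.MP_7ba156_nt.EntriesOfMatrices
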