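import Pool.Agent.Run7.h794.MK.Fin
import Pool.Agent.N384.MQ.Ex
import Pool.Agent.N384.MQ.Quot

/-!
# The number of primes in random windows of `λ log N` elements inside a short interval has a Poisson law

The conjectures on maximal prime gaps rest on the prediction of Cramér that the number of primes in a window of `λ log N` elements has a Poisson
distribution with mean `λ`. For intervals nothing is known unconditionally. We prove the Poisson law for almost every window
`n + c + {y_1, ..., y_m}` with `m = λ log N + O(1)` elements which are chosen at random from an arbitrary family of residues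
with small Fourier coefficients (which may have only a power of `log N` members) inside an interval of length
`q ≥ N ^ (1 / 3) log ^ C N`.

From Mathlib: `ZMod.stdAddChar`: the additive character `j ↦ exp (2 π i j / q)` of the integers modulo `q`; `ZMod.val`: the
least residue.

Main ingredients (all proved in the repository): the primes with additive characters of small denominators in almost all
intervals of length `x ^ (1 / 3) log ^ C x` (project CR: Heath-Brown's identity, mean values of Dirichlet polynomials, zeros of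
`L`-functions), Gallagher's lemma on the major arcs, sparse windows in mean square (project MK), covariances.
-/

set_option autoImplicit false

namespace Pool.Agent.Results.MP_7ba156_nt.PoissonRandomWindows

open Finset

/-- The Fourier coefficients of the residues `y i`, `i ∈ s`, modulo `q` at the nonzero frequencies are at most
`η` times the number of the residues: `|∑ i ∈ s, e(h y_i / q)| ≤ η |s|` for all `h ≠ 0` modulo `q`. -/
def Flat {ι : Type} (q : ℕ) [NeZero q] (η : ℝ) (s : Finset ι) (y : ι → ZMod q) : Prop :=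
  ∀ h : ZMod q, h ≠ 0 → ‖∑ i ∈ s, (ZMod.stdAddChar (h * y i) : ℂ)‖ ≤ η * s.card

/-- The number of the primes among the `m` integers `n + c + y_(ω 1), ..., n + c + y_(ω m)`, where `ω` is a choice of `m`
elements of `s` (with the least residues `0 ≤ y_i < q`), counted with multiplicity. -/
def hits {ι : Type} {q : ℕ} (s : Finset ι) (y : ι → ZMod q) (c m : ℕ) (ω : Fin m → s) (n : ℕ) : ℕ :=
  ((univ : Finset (Fin m)).filter (fun l => (n + c + (y (ω l)).val).Prime)).card

open Classical in
/-- **(1)** Let `λ > 0`, `ε > 0` and `B` be fixed. There are `V`, `C` and `K` such that the following holds for all large `N`, all `q`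
with `N ^ (1 / 3) log ^ C N ≤ q ≤ B N`, all finite families of residues `y i`, `i ∈ s`, modulo `q` whose Fourier coefficients at the
nonzero frequencies are at most `|s| / log ^ V q`, all `0 ≤ c ≤ B N` and all integers `m` with `|m - λ log N| ≤ 1`: for all the
choices `ω` of `m` elements of `s` with at most `(K / log N) |s| ^ m` exceptions, the number of the `n ≤ N` for which exactly
`j` of the `m` integers `n + c + y_(ω 1), ..., n + c + y_(ω m)` are primes is `(exp (-λ) λ ^ j / j! ± ε) N`, for all `j ≥ 0`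
simultaneously.

**(2)**, **(3)** Examples. The condition on the Fourier coefficients holds modulo all large primes `p` for:
* the quotients `j / r` of the integers `0 ≤ j < S` by the primes `r ≤ R`, if `log ^ (V + 4) p ≤ R < p` and `R ^ 2 ≤ S`; thus
  there are such explicit sets with only `log ^ (3 V + 12) p` members;
* the cosets of all subgroups of the multiplicative group of an order of at least `p ^ (3/8) log ^ (3 V + 1) p`;
* the residues `a b + g(a) + k(b)`, `a ∈ A`, `b ∈ B`, for arbitrary sets with `|A| |B| ≥ p log ^ (2 V) p` and arbitrary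
  functions `g` and `k`;
* the values `f(n)`, `0 ≤ n < x`, of all integer polynomials of degree `d` whose leading coefficient is not divisible by
  `p`, if `x ^ d ≥ p log ^ C p`, where `C` depends on `d` and `V`. -/
theorem result :
    (∀ (lam ε : ℝ) (B : ℕ), 0 < lam → 0 < ε → ∃ V C K N₀ : ℕ, ∀ N : ℕ, N₀ ≤ N →
      ∀ (q : ℕ) [NeZero q], (N : ℝ) ^ (1 / 3 : ℝ) * Real.log N ^ C ≤ q → q ≤ B * N →
      ∀ {ι : Type} (s : Finset ι) (y : ι → ZMod q), s.Nonempty → Flat q (1 / Real.log q ^ V) s y →
      ∀ c : ℕ, c ≤ B * N → ∀ m : ℕ, |(m : ℝ) - lam * Real.log N| ≤ 1 →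
      (((univ : Finset (Fin m → s)).filter (fun ω => ¬ ∀ j : ℕ,
        |((((Icc 1 N).filter (fun n => hits s y c m ω n = j)).card : ℕ) : ℝ) -
          Real.exp (-lam) * lam ^ j / j.factorial * N| ≤ ε * N)).card : ℝ) ≤
        K / Real.log N * (s.card : ℝ) ^ m) ∧
    (∀ V : ℕ, ∃ P₀ : ℕ, ∀ p : ℕ, P₀ ≤ p → ∀ [Fact p.Prime],
      (∀ R S : ℕ, Real.log p ^ (V + 4) ≤ R → R < p → R ^ 2 ≤ S →
        Flat p (1 / Real.log p ^ V) (((Icc 1 R).filter Nat.Prime) ×ˢ range S)
          (fun z => ((z.2 : ℕ) : ZMod p) * ((z.1 : ℕ) : ZMod p)⁻¹)) ∧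
      (∀ (H : Subgroup (ZMod p)ˣ) (s : Finset (ZMod p)ˣ), (∀ u, u ∈ s ↔ u ∈ H) →
        (p : ℝ) ^ (3 / 8 : ℝ) * Real.log p ^ (3 * V + 1) ≤ s.card → ∀ x : ZMod p, x ≠ 0 →
        Flat p (1 / Real.log p ^ V) s (fun u => x * (u : ZMod p))) ∧
      (∀ (A B : Finset (ZMod p)) (g k : ZMod p → ZMod p), (p : ℝ) * Real.log p ^ (2 * V) ≤ A.card * B.card →
        Flat p (1 / Real.log p ^ V) (A ×ˢ B) (fun z => z.1 * z.2 + g z.1 + k z.2))) ∧
    (∀ d V : ℕ, 1 ≤ d → ∃ C P₀ : ℕ, ∀ p : ℕ, P₀ ≤ p → ∀ [Fact p.Prime] (f : Polynomial ℤ), f.natDegree = d →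
      ¬ (p : ℤ) ∣ f.leadingCoeff → ∀ x : ℕ, (p : ℝ) * Real.log p ^ C ≤ (x : ℝ) ^ d →
      Flat p (1 / Real.log p ^ V) (range x) (fun n => ((f.eval (n : ℤ) : ℤ) : ZMod p))) := by
  refine ⟨fun lam ε B hlam hε => ?_, fun V => ?_, fun d V hd => ?_⟩
  · obtain ⟨V, C, K, N₀, h⟩ := Pool.Agent.Run7.h794.MK.poi (Pool.Agent.Run7.h794.MK.sw00 Pool.Agent.Run7.h931.MK.t31)
      lam hlam ε hε B
    obtain ⟨N₁, h1⟩ := Pool.Agent.Run7.h794.MK.flat_log V
    refine ⟨V + 1, C, K, N₀ + N₁, fun N hN q _ hq1 hq2 ι s y hs hf c hc m hm => ?_⟩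
    have h2 := h N (by omega) q hq1 hq2 s y hs (h1 N (by omega) q C hq1 s y hf) c hc m hm
    refine le_trans (Nat.cast_le.2 (card_le_card fun ω hω => ?_)) h2
    rw [mem_filter] at hω ⊢
    refine ⟨hω.1, fun h3 => hω.2 fun j => ?_⟩
    have h4 := h3 j
    unfold Pool.Agent.Run7.h794.MK.pw at h4
    unfold hits
    convert h4
  · obtain ⟨P₁, h1⟩ := Pool.Agent.N384.MQ.flat_quot V
    obtain ⟨P₂, h2⟩ := Pool.Agent.N384.MQ.flat_coset V
    obtain ⟨P₃, h3⟩ := Pool.Agent.N384.MQ.flat_prod V
    exact ⟨P₁ + P₂ + P₃, fun p hp _ => ⟨fun R S => h1 p (by omega) R S, fun H s => h2 p (by omega) H s,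
      fun A B g k => h3 p (by omega) A B g k⟩⟩
  · exact Pool.Agent.N384.MQ.flat_poly d V hd

end Pool.Agent.Results.MP_7ba156_nt.PoissonRandomWindows
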