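import Pool.Agent.Run7.h52.M9

/-!
# MP_7ba156_nt: square weights and intervals of length `(log N) ^ A`, `A > 2`

A square weight of level `X` is a finite sum of squares `V ^ 2` of functions of level `R`, each restricted to a
residue class modulo `d`, with `d R ^ 2 ≤ X`.  One residue class modulo a product of primes (the source of all known
long gaps between primes), the matrices of Maier and the weights of Selberg, of Goldston, Pintz and Yildirim and of
Maynard and Tao are of this form.  Let `r(n)` be the number of integers in `(n, n + Y]` without a prime factor `≤ z`,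
`z ≤ N ^ c`.  We prove: if `Y ≥ (log N) ^ A` with `A > 2`, then, up to a share `ε` of its mass, every square
weight of level `N ^ θ`, `θ < 1`, lives on integers `n` with
`f(A) - ε ≤ r(n) / (W(z) Y) ≤ F(A) + ε`, where `f(A) = 2 e ^ γ log (A - 1) / A` (`A ≤ 4`) and
`F(A) = 2 e ^ γ / A` (`A ≤ 3`) are the functions of the linear sieve; and for every `A > 2`
`|r(n) / (W(z) Y) - 1| ≤ 2 e ^ γ / Γ(A + 1) + ε`.
-/

set_option autoImplicit false

namespace Pool.Agent.Results.MP_7ba156_nt.SquareWeightsBeyondExponentTwo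

/-- `V` is a sum of functions of `n mod q`, `q ≤ R` -/
def HasLevel (R : ℕ) (V : ℤ → ℝ) : Prop :=
  ∃ c : ℕ → ℤ → ℝ, ∀ n : ℤ, V n = ∑ q ∈ Finset.Icc 1 R, c q (n % (q : ℤ))

/-- a finite sum of squares `V ^ 2` restricted to arithmetic progressions of modulus `d`, with
`V` of level `R` and `d * R ^ 2 ≤ X` -/
def SquareWeight (X : ℝ) (w : ℤ → ℝ) : Prop :=
  ∃ (J : ℕ) (d R : Fin J → ℕ) (a : Fin J → ℤ) (V : Fin J → ℤ → ℝ),
    (∀ j, 1 ≤ d j ∧ 1 ≤ R j ∧ (d j : ℝ) * (R j : ℝ) ^ 2 ≤ X ∧ HasLevel (R j) (V j)) ∧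
    ∀ n : ℤ, w n = ∑ j, if (d j : ℤ) ∣ n - a j then (V j n) ^ 2 else 0

open Classical in
/-- the number of the integers in `(n, n + Y]` without a prime factor `≤ z` -/
noncomputable def roughCount (z Y : ℕ) (n : ℤ) : ℕ :=
  ((Finset.Ioc n (n + Y)).filter fun m => ∀ p ∈ (Finset.Icc 1 z).filter Nat.Prime, ¬ (p : ℤ) ∣ m).card

/-- `∏_{p ≤ z} (1 - 1/p)` -/
noncomputable def W (z : ℕ) : ℝ := ∏ p ∈ (Finset.Icc 1 z).filter Nat.Prime, (1 - 1 / (p : ℝ))

theorem result (θ A ε : ℝ) (hθ0 : 0 < θ) (hθ1 : θ < 1) (hA : 2 < A) (hε : 0 < ε) :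
    ∃ c : ℝ, 0 < c ∧ ∃ T : ℝ, ∀ N : ℕ, T ≤ N → ∀ Y z : ℕ,
    (Real.log N) ^ A ≤ Y → (z : ℝ) ≤ (N : ℝ) ^ c →
    ∀ w : ℤ → ℝ, SquareWeight ((N : ℝ) ^ θ) w → ∀ x : ℤ,
    (A ≤ 4 → ∑ n ∈ (Finset.Ioc x (x + N)).filter (fun n => (roughCount z Y n : ℝ) <
        (2 * Real.exp Real.eulerMascheroniConstant * Real.log (A - 1) / A - ε) * (W z * Y)), w n
        ≤ ε * ∑ n ∈ Finset.Ioc x (x + N), w n) ∧
    (A ≤ 3 → ∑ n ∈ (Finset.Ioc x (x + N)).filter (fun n =>
        (2 * Real.exp Real.eulerMascheroniConstant / A + ε) * (W z * Y) < (roughCount z Y n : ℝ)), w n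
        ≤ ε * ∑ n ∈ Finset.Ioc x (x + N), w n) ∧
    ∑ n ∈ (Finset.Ioc x (x + N)).filter (fun n =>
        (2 * Real.exp Real.eulerMascheroniConstant / Real.Gamma (A + 1) + ε) * (W z * Y) <
          |(roughCount z Y n : ℝ) - W z * Y|), w n
        ≤ ε * ∑ n ∈ Finset.Ioc x (x + N), w n := by
  have e : roughCount = Run7.h52.U20.RC := by
    funext z Y n
    unfold roughCount Run7.h52.U20.RC
    congr 1
    exact Finset.filter_congr_decidable _ _ _
  rw [e]
  obtain ⟨c, hc, T, H⟩ := Run7.h52.M9.realM hθ0 hθ1 hA hε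
  refine ⟨c, hc, T, fun N hN Y z hY hz w hw x => ?_⟩
  obtain ⟨h1, h2, h3⟩ := H N hN Y z hY hz w hw x
  exact ⟨h2, h3, h1⟩

end Pool.Agent.Results.MP_7ba156_nt.SquareWeightsBeyondExponentTwo
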